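import Pool.Agent.Lib.MP_aa9b81_an.Mg.G017
import Pool.Agent.Lib.MP_aa9b81_an.CutM.F

/-!
# Hereditary shifts, part J0: products
-/

open scoped ENNReal Topology ZeroAtInfty
open Function Filter Set

noncomputable section

namespace Pool.Agent.Lib.MP_aa9b81_an.Hs

open Cut

variable {Γ Z I A : Type} [Group Γ] [MulAction Γ I] [MulAction Γ Z] [TopologicalSpace Z]
    [TopologicalSpace A] {a₀ : A} (Y : Hered Γ Z I A a₀) (V : Type) [TopologicalSpace V]
    [MulAction Γ V]

/-- The hereditary set `Y × V ⊆ (Z × V) × A^I`. -/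
def Hered.prod : Hered Γ (Z × V) I A a₀ where
  carrier := {x | (x.1.1, x.2) ∈ Y.carrier}
  closed := Y.closed.preimage ((continuous_fst.comp continuous_fst).prodMk continuous_snd)
  smul_mem g x hx := Y.smul_mem g (x.1.1, x.2) hx
  cut_mem J x hx := Y.cut_mem J (x.1.1, x.2) hx

/-- The nonzero configurations of the product. -/
def hSt : (Y.prod V).St ≃ₜ Y.St × V where
  toFun x := (⟨(x.1.1.1, x.1.2), x.2⟩, x.1.1.2)
  invFun p := ⟨((p.1.1.1, p.2), p.1.1.2), p.1.2⟩
  left_inv _ := rfl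
  right_inv _ := rfl
  continuous_toFun := by
    have h1 : Continuous fun x : (Y.prod V).St => x.1 := continuous_subtype_val
    refine Continuous.prodMk (Continuous.subtype_mk ?_ _) ?_
    · exact (continuous_fst.comp (continuous_fst.comp h1)).prodMk (continuous_snd.comp h1)
    · exact continuous_snd.comp (continuous_fst.comp h1)
  continuous_invFun := by
    have h1 : Continuous fun p : Y.St × V => p.1.1 := continuous_subtype_val.comp continuous_fst
    refine Continuous.subtype_mk ?_ _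
    exact ((continuous_fst.comp h1).prodMk continuous_snd).prodMk (continuous_snd.comp h1)

theorem hSt_smul (g : Γ) (x : (Y.prod V).St) : hSt Y V (g • x) = g • hSt Y V x := rfl

/-- The finite configurations of the product. -/
def hSf : (Y.prod V).Sf ≃ₜ Y.Sf × V where
  toFun x := (Y.mkSf (hSt Y V x.1.1).1 x.1.2 x.2, (hSt Y V x.1.1).2)
  invFun p := (Y.prod V).mkSf ((hSt Y V).symm (Y.r p.1, p.2)) (Y.F p.1) p.1.2
  left_inv _ := rfl
  right_inv _ := rfl
  continuous_toFun := by
    have h1 : Continuous fun x : (Y.prod V).Sf => x.1 := continuous_subtype_val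
    have h2 : Continuous fun x : (Y.prod V).Sf => hSt Y V x.1.1 :=
      (hSt Y V).continuous.comp (continuous_fst.comp h1)
    refine Continuous.prodMk (Continuous.subtype_mk ?_ _) (continuous_snd.comp h2)
    exact (continuous_fst.comp h2).prodMk (continuous_snd.comp h1)
  continuous_invFun := by
    have h1 : Continuous fun p : Y.Sf × V => (hSt Y V).symm (Y.r p.1, p.2) :=
      (hSt Y V).symm.continuous.comp ((Y.continuous_r.comp continuous_fst).prodMk continuous_snd)
    exact Continuous.subtype_mk (h1.prodMk (Y.continuous_F.comp continuous_fst)) _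

theorem hSf_smul (g : Γ) (x : (Y.prod V).Sf) : hSf Y V (g • x) = g • hSf Y V x := rfl

variable {E : Type} [AddCommGroup E] [Module ℝ E] [TopologicalSpace E] [T2Space E]
    [ContinuousAdd E] [ContinuousSMul ℝ E] [DistribMulAction Γ E] [SMulCommClass Γ ℝ E]
    [ContinuousConstSMul Γ E] (Q : ConvexSpace Γ E)

omit [TopologicalSpace V] [MulAction Γ V] in
/-- The average over the support. PROOF: `F q` is nonempty (a point of `Y.St` has a coordinate `≠ a₀`). Take
`qS s = (|F|)⁻¹ • ∑_{i ∈ F} (q i)`, in `Q` by `Convex.sum_mem`. It is a function of `F s` in the discrete space `Fd I`, so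
continuous. Equivariant: the action on `E` is linear (`Finset.smul_sum`, `smul_comm`), `hq`, `Finset.sum_map`, `card_gF`. -/
theorem exists_average {q : I → Q.Pt} (hq : ∀ (g : Γ) i, q (g • i) = g • q i) :
    ∃ qS : Y.Sf → Q.Pt, Continuous qS ∧ ∀ (g : Γ) s, qS (g • s) = g • qS s := by
  classical
  have hmem : ∀ F : Finset I, F.Nonempty →
      (F.card : ℝ)⁻¹ • ∑ i ∈ F, (q i).1 ∈ Q.carrier := by
    intro F hF
    have h0 : (F.card : ℝ) ≠ 0 := Nat.cast_ne_zero.2 (Finset.card_ne_zero.2 hF)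
    rw [Finset.smul_sum]
    refine Q.convex.sum_mem (fun i _ => by positivity) ?_ (fun i _ => (q i).2)
    rw [Finset.sum_const, nsmul_eq_mul, mul_inv_cancel₀ h0]
  obtain ⟨q0, hq0⟩ := Q.nonempty
  let av : Fd I → Q.Pt := fun F => if h : F.s.Nonempty then
    ⟨(F.s.card : ℝ)⁻¹ • ∑ i ∈ F.s, (q i).1, hmem F.s h⟩ else ⟨q0, hq0⟩
  have hav : ∀ F : Fd I, F.s.Nonempty → (av F).1 = (F.s.card : ℝ)⁻¹ • ∑ i ∈ F.s, (q i).1 := by
    intro F hF
    simp only [av, dif_pos hF]
  have hne : ∀ s : Y.Sf, (Y.F s).s.Nonempty := by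
    intro s
    obtain ⟨i, hi⟩ := (Y.r s).2.2
    exact ⟨i, (Y.mem_F s i).2 hi⟩
  refine ⟨fun s => av (Y.F s), (continuous_of_discreteTopology (f := av)).comp Y.continuous_F, ?_⟩
  intro g s
  refine Subtype.ext ?_
  have h1 := hav (Y.F (g • s)) (hne (g • s))
  have h2 := hav (Y.F s) (hne s)
  change (av (Y.F (g • s))).1 = g • (av (Y.F s)).1
  have h4 : g • ((((Y.F s).s.card : ℝ))⁻¹ • ∑ i ∈ (Y.F s).s, (q i).1)
      = (((Y.F s).s.card : ℝ))⁻¹ • ∑ i ∈ (Y.F s).s, g • (q i).1 := by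
    rw [smul_comm, Finset.smul_sum]
  rw [h1, h2, h4, Y.F_smul, Fd.s_smul, card_gF]
  congr 1
  rw [gF, Finset.sum_map]
  refine Finset.sum_congr rfl fun i _ => ?_
  have h3 : q (g • i) = g • q i := hq g i
  change (q (g • i)).1 = g • (q i).1
  rw [h3]
  rfl

variable [T2Space Z] [T2Space A] [CompactSpace A] [LocallyCompactSpace Z]
  [ContinuousConstSMul Γ Z] [T2Space V] [LocallyCompactSpace V] [ContinuousConstSMul Γ V]

/-- VANISHING. -/
theorem GL1_le_E1_St [Countable Γ] [Countable I] [TopologicalSpace.MetrizableSpace A]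
    {q : I → Q.Pt} (hq : ∀ (g : Γ) i, q (g • i) = g • q i) :
    GL1 (cp Γ (Y.St × Cone Q × V)) ≤ E1 (cp Γ (Y.St × Cone Q × V)) := by
  have := cone_locallyCompact Q
  obtain ⟨qS, h1, h2⟩ := exists_average Y Q hq
  have h3 : GL1 (cp Γ (Y.Sf × Cone Q × V)) ≤ E1 (cp Γ (Y.Sf × Cone Q × V)) :=
    GL1_le_E1_of_map Q qS h1 h2
  have h4 : GL1 (cp Γ (Y.prod (Cone Q × V)).Sf) ≤ E1 (cp Γ (Y.prod (Cone Q × V)).Sf) := by
    refine GL1_le_E1_of_homeomorph (hSf Y (Cone Q × V)).symm (fun g p => ?_) h3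
    rw [Homeomorph.symm_apply_eq, hSf_smul, Homeomorph.apply_symm_apply]
  exact GL1_le_E1_of_homeomorph (hSt Y (Cone Q × V)) (hSt_smul Y _)
    (GL1_le_E1_of_finite (Y.prod (Cone Q × V)) h4)

end Pool.Agent.Lib.MP_aa9b81_an.Hs
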