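import Pool.Agent.Lib.MP_aa9b81_an.Hs.J1a

/-!
# Hereditary shifts, part J1: the zero section
-/

open scoped ENNReal Topology ZeroAtInfty
open Function Filter Set

noncomputable section

namespace Pool.Agent.Lib.MP_aa9b81_an.Hs

open Cut

variable {Γ Z I A : Type} [Group Γ] [MulAction Γ I] [MulAction Γ Z] [TopologicalSpace Z]
    [TopologicalSpace A] {a₀ : A} (Y : Hered Γ Z I A a₀)

variable {E : Type} [AddCommGroup E] [Module ℝ E] [TopologicalSpace E] [T2Space E]
    [ContinuousAdd E] [ContinuousSMul ℝ E] [DistribMulAction Γ E] [SMulCommClass Γ ℝ E]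
    [ContinuousConstSMul Γ E] (Q : ConvexSpace Γ E) [T2Space Z] [T2Space A] [CompactSpace A]
    [LocallyCompactSpace Z] [ContinuousConstSMul Γ Z]

/-- RESTRICTION TO THE ZERO SECTION. PROOF: with `W = Cone Q × Cube j`: `K1_pull_bijective_step` for `P = Y.Pt × W`,
`c = Prod.map zs id`, `o = Prod.map inc id` (`range_inc`; `range_prodMap`-like), with `h0`, `h1` from `GL1_le_E1_St` for
`V = Cube j` and `V = Cube j × OO` (`GL1_le_E1_of_homeomorph`, `Homeomorph.prodAssoc`); `isoU_iff`, then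
`isoU_assoc` and `isoU_cube` (for `Cone Q`); as the proofs of `Cut.isoU_stratum` (CutM/B.lean) and `Cut.cutting`
(CutM/F.lean). -/
theorem isoU_zs [Countable Γ] [Countable I] [TopologicalSpace.MetrizableSpace A]
    (hQ : AmenableAction Γ Q.Pt) {q : I → Q.Pt} (hq : ∀ (g : Γ) i, q (g • i) = g • q i) (j : ℕ) :
    IsoU Γ (Prod.map Y.zs (id : Cone Q × Cube (j + 1) → Cone Q × Cube (j + 1))) := by
  have hA := propA_of_convexSpace Q hQ
  have hcone := cone_locallyCompact Q
  have hz := isClosedEmbedding_zs Y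
  have hez : ∀ (g : Γ) z, Y.zs (g • z) = g • Y.zs z := zs_smul Y
  have hpz : IsProperMap Y.zs := hz.isProperMap
  rw [← isoU_cube hpz hez j, ← isoU_assoc hpz hez]
  have hc : Topology.IsClosedEmbedding
      (Prod.map Y.zs (id : Cone Q × Cube j → Cone Q × Cube j)) :=
    hz.prodMap Topology.IsClosedEmbedding.id
  have ho : Topology.IsOpenEmbedding
      (Prod.map Y.inc (id : Cone Q × Cube j → Cone Q × Cube j)) :=
    (isOpenEmbedding_inc Y).prodMap Topology.IsOpenEmbedding.id
  have hco : range (Prod.map Y.inc (id : Cone Q × Cube j → Cone Q × Cube j)) =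
      (range (Prod.map Y.zs (id : Cone Q × Cube j → Cone Q × Cube j)))ᶜ := by
    rw [Set.range_prodMap, Set.range_prodMap, range_inc Y]
    ext x
    simp
  have hp : IsProperMap (Prod.map (Prod.map Y.zs (id : Cone Q × Cube j → Cone Q × Cube j))
      (id : OO → OO)) := hc.isProperMap.prodMap isProperMap_id
  have hec : ∀ (g : Γ) x, Prod.map Y.zs (id : Cone Q × Cube j → Cone Q × Cube j) (g • x) =
      g • Prod.map Y.zs (id : Cone Q × Cube j → Cone Q × Cube j) x := fun _ _ => rfl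
  have he : ∀ (g : Γ) x, Prod.map (Prod.map Y.zs (id : Cone Q × Cube j → Cone Q × Cube j))
      (id : OO → OO) (g • x) = g • Prod.map (Prod.map Y.zs
        (id : Cone Q × Cube j → Cone Q × Cube j)) (id : OO → OO) x := fun _ _ => rfl
  rw [isoU_iff hp he]
  have h0 : GL1 (cp Γ (Y.St × Cone Q × Cube j)) ≤ E1 (cp Γ (Y.St × Cone Q × Cube j)) :=
    GL1_le_E1_St Y (Cube j) Q hq
  have h1 : GL1 (cp Γ (Y.St × Cone Q × Cube j × OO)) ≤
      E1 (cp Γ (Y.St × Cone Q × Cube j × OO)) := GL1_le_E1_St Y (Cube j × OO) Q hq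
  have h1' : GL1 (cp Γ ((Y.St × Cone Q × Cube j) × OO)) ≤
      E1 (cp Γ ((Y.St × Cone Q × Cube j) × OO)) := by
    have h2 := GL1_le_E1_of_homeomorph ((Homeomorph.refl Y.St).prodCongr
      (Homeomorph.prodAssoc (Cone Q) (Cube j) OO).symm) (fun _ _ => rfl) h1
    exact GL1_le_E1_of_homeomorph
      (Homeomorph.prodAssoc Y.St (Cone Q × Cube j) OO).symm (fun _ _ => rfl) h2
  exact K1_pull_bijective_step hA hc hec ho (fun _ _ => rfl) hco h0 h1' hp he

end Pool.Agent.Lib.MP_aa9b81_an.Hs
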