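import Pool.Agent.Lib.MP_aa9b81_an.Hs.J0
import Pool.Agent.Lib.MP_aa9b81_an.Mg.G001

/-!
# Hereditary shifts, part J1a: the zero section
-/

open scoped ENNReal Topology ZeroAtInfty
open Function Filter Set

noncomputable section

namespace Pool.Agent.Lib.MP_aa9b81_an.Hs

open Cut

variable {Γ Z I A : Type} [Group Γ] [MulAction Γ I] [MulAction Γ Z] [TopologicalSpace Z]
    [TopologicalSpace A] {a₀ : A} (Y : Hered Γ Z I A a₀)

/-- The points of `Y`. -/
def Hered.Pt : Type := {x : Z × Cf I A // x ∈ Y.carrier}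

instance : TopologicalSpace Y.Pt :=
  inferInstanceAs (TopologicalSpace {x : Z × Cf I A // x ∈ Y.carrier})

instance : MulAction Γ Y.Pt where
  smul g x := ⟨g • x.1, Y.smul_mem g x.1 x.2⟩
  one_smul x := Subtype.ext (one_smul Γ x.1)
  mul_smul g h x := Subtype.ext (mul_smul g h x.1)

/-- The constant configuration. -/
def cc (I : Type) {A : Type} (a₀ : A) : Cf I A := fun _ => a₀

theorem smul_cc (g : Γ) : g • cc I a₀ = cc I a₀ := rfl

/-- The base `{z | (z, (a₀)) ∈ Y}` of the zero section. -/
def Hered.Z0 : Type := {z : Z // (z, cc I a₀) ∈ Y.carrier}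

instance : TopologicalSpace Y.Z0 := inferInstanceAs (TopologicalSpace {z : Z // (z, cc I a₀) ∈ Y.carrier})

instance : MulAction Γ Y.Z0 where
  smul g z := ⟨g • z.1, Y.smul_mem g (z.1, cc I a₀) z.2⟩
  one_smul x := Subtype.ext (one_smul Γ x.1)
  mul_smul g h x := Subtype.ext (mul_smul g h x.1)

/-- The zero section. -/
def Hered.zs (z : Y.Z0) : Y.Pt := ⟨(z.1, cc I a₀), z.2⟩

/-- The inclusion of the complement of the zero section. -/
def Hered.inc (x : Y.St) : Y.Pt := ⟨x.1, x.2.1⟩

theorem zs_smul (g : Γ) (z : Y.Z0) : Y.zs (g • z) = g • Y.zs z := rfl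

theorem inc_smul (g : Γ) (x : Y.St) : Y.inc (g • x) = g • Y.inc x := rfl

/-- PROOF: an embedding (the composition with `Pt → Z × A^I` is the embedding `z ↦ (z, a₀)`, restricted), the range is the
set of the points of `Y.Pt` with configuration `cc I a₀`, closed. -/
theorem isClosedEmbedding_zs [T2Space A] : Topology.IsClosedEmbedding Y.zs := by
  have hval : Topology.IsEmbedding (Subtype.val : {x : Z × Cf I A // x ∈ Y.carrier} → Z × Cf I A) :=
    Topology.IsEmbedding.subtypeVal
  have hcont : Continuous Y.zs :=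
    Continuous.subtype_mk ((continuous_subtype_val :
      Continuous (Subtype.val : {z : Z // (z, cc I a₀) ∈ Y.carrier} → Z)).prodMk
      continuous_const) _
  have hcomp : Topology.IsEmbedding (fun z : Y.Z0 => ((z.1, cc I a₀) : Z × Cf I A)) := by
    have h1 : Topology.IsEmbedding (fun z : Z => ((z, cc I a₀) : Z × Cf I A)) :=
      isEmbedding_prodMkLeft (cc I a₀)
    exact h1.comp (Topology.IsEmbedding.subtypeVal :
      Topology.IsEmbedding (Subtype.val : {z : Z // (z, cc I a₀) ∈ Y.carrier} → Z))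
  have hemb : Topology.IsEmbedding Y.zs :=
    Topology.IsEmbedding.of_comp hcont (continuous_subtype_val :
      Continuous (Subtype.val : {x : Z × Cf I A // x ∈ Y.carrier} → Z × Cf I A)) hcomp
  refine ⟨hemb, ?_⟩
  have hr : range Y.zs = {x : Y.Pt | x.1.2 = cc I a₀} := by
    ext x
    constructor
    · rintro ⟨z, rfl⟩
      rfl
    · intro hx
      have hx' : x.1 = (x.1.1, cc I a₀) := Prod.ext rfl hx
      refine ⟨⟨x.1.1, ?_⟩, ?_⟩
      · rw [← hx']
        exact x.2
      · exact Subtype.ext hx'.symm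
  rw [hr]
  have hc2 : Continuous (fun x : Y.Pt => x.1.2) :=
    continuous_snd.comp (continuous_subtype_val :
      Continuous (Subtype.val : {x : Z × Cf I A // x ∈ Y.carrier} → Z × Cf I A))
  exact isClosed_eq hc2 continuous_const

/-- PROOF: the inclusion of a subset, the range is the open set `{x | ∃ i, x.2 i ≠ a₀}`. -/
theorem isOpenEmbedding_inc [T2Space A] : Topology.IsOpenEmbedding Y.inc := by
  have hcont : Continuous Y.inc :=
    Continuous.subtype_mk (continuous_subtype_val :
      Continuous (Subtype.val : {x : Z × Cf I A // x ∈ Y.carrier ∧ ∃ i, x.2 i ≠ a₀} → Z × Cf I A)) _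
  have hemb : Topology.IsEmbedding Y.inc :=
    Topology.IsEmbedding.of_comp hcont (continuous_subtype_val :
      Continuous (Subtype.val : {x : Z × Cf I A // x ∈ Y.carrier} → Z × Cf I A))
      (Topology.IsEmbedding.subtypeVal : Topology.IsEmbedding
        (Subtype.val : {x : Z × Cf I A // x ∈ Y.carrier ∧ ∃ i, x.2 i ≠ a₀} → Z × Cf I A))
  refine ⟨hemb, ?_⟩
  have hr : range Y.inc = ⋃ i, {x : Y.Pt | x.1.2 i ≠ a₀} := by
    ext x
    constructor
    · rintro ⟨z, rfl⟩
      obtain ⟨i, hi⟩ := z.2.2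
      exact mem_iUnion.2 ⟨i, hi⟩
    · intro hx
      obtain ⟨i, hi⟩ := mem_iUnion.1 hx
      exact ⟨⟨x.1, x.2, i, hi⟩, rfl⟩
  rw [hr]
  refine isOpen_iUnion fun i => ?_
  have hc2 : Continuous (fun x : Y.Pt => x.1.2 i) :=
    (continuous_apply (A := fun _ : I => A) i).comp (continuous_snd.comp (continuous_subtype_val :
      Continuous (Subtype.val : {x : Z × Cf I A // x ∈ Y.carrier} → Z × Cf I A)))
  exact isOpen_ne_fun hc2 continuous_const

/-- PROOF: `x` is in the range of `zs` iff all its coordinates are `a₀`. -/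
theorem range_inc : range Y.inc = (range Y.zs)ᶜ := by
  ext x
  constructor
  · rintro ⟨z, rfl⟩ ⟨w, hw⟩
    obtain ⟨i, hi⟩ := z.2.2
    have h1 : (Y.zs w).1 = (Y.inc z).1 := congrArg Subtype.val hw
    have h2 : cc I a₀ = z.1.2 := congrArg Prod.snd h1
    exact hi (congrFun h2 i).symm
  · intro hx
    by_contra hcon
    apply hx
    have hall : x.1.2 = cc I a₀ := by
      funext i
      by_contra hi
      exact hcon ⟨⟨x.1, x.2, i, hi⟩, rfl⟩
    have hx' : x.1 = (x.1.1, cc I a₀) := Prod.ext rfl hall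
    refine ⟨⟨x.1.1, ?_⟩, ?_⟩
    · rw [← hx']
      exact x.2
    · exact Subtype.ext hx'.symm

instance [T2Space Z] [T2Space A] : T2Space Y.Pt :=
  inferInstanceAs (T2Space {x : Z × Cf I A // x ∈ Y.carrier})

instance [ContinuousConstSMul Γ Z] : ContinuousConstSMul Γ Y.Pt :=
  ⟨fun g => Continuous.subtype_mk
    ((continuous_const_smul g).comp continuous_subtype_val) _⟩

instance [ContinuousConstSMul Γ Z] : ContinuousConstSMul Γ Y.Z0 :=
  ⟨fun g => Continuous.subtype_mk
    ((continuous_const_smul g).comp continuous_subtype_val) _⟩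

/-- PROOF: a closed subset of `Z × A^I`. -/
instance [LocallyCompactSpace Z] [T2Space A] [CompactSpace A] : LocallyCompactSpace Y.Pt := by
  have h : Topology.IsClosedEmbedding
      (Subtype.val : {x : Z × Cf I A // x ∈ Y.carrier} → Z × Cf I A) :=
    Y.closed.isClosedEmbedding_subtypeVal
  exact h.locallyCompactSpace

end Pool.Agent.Lib.MP_aa9b81_an.Hs
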